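import Pool.Agent.N676.RV.Defs
import Pool.Agent.N676.RV.Base

/-!
# Residue classes contain their share of the members of families of vectors of residues

(helper676; uniform distribution modulo small integers by helper384)
-/

set_option autoImplicit false

namespace Pool.Agent.N676.RV

open Finset Filter Topology
open Pool.Agent.Y722.HS (red)

variable {ι : Type} [Fintype ι]

/-- the share of a residue class -/
theorem cls_fam (Q : ℕ) (hQ0 : 0 < Q) (G : ι → ℤ) (ε : ℝ) (hε : 0 < ε) :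
    ∃ Z₀ : ℕ, ∀ (τ : Type) (q : ℕ) [NeZero q] (s : Finset τ) (y : τ → ι → ZMod q) (Z : ℝ),
      Z₀ ≤ Z → Small q Z s y → ∀ c₀ : ι → ℤ,
        (((Q : ℝ) ^ Fintype.card ι)⁻¹ - ε) * s.card ≤
          ({i : τ | i ∈ s ∧ ∀ j, (Q : ℤ) ∣ vec y c₀ i j - G j}.ncard : ℝ) := by
  classical
  have hQ0r : (0 : ℝ) < Q := by exact_mod_cast hQ0
  have : NeZero Q := ⟨hQ0.ne'⟩
  obtain ⟨r, hr⟩ : ∃ r, r = Fintype.card ι := ⟨_, rfl⟩
  obtain ⟨Z₀, hZ₀⟩ := exists_nat_ge (((Q : ℝ) + 1) / ε)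
  refine ⟨Z₀ + 1, fun τ q _ s y Z hZ hsm c₀ => ?_⟩
  have hZ1 : (Z₀ : ℝ) + 1 ≤ Z := by exact_mod_cast hZ
  have hZ0 : 0 < Z := by
    have : (0 : ℝ) ≤ Z₀ := Nat.cast_nonneg _
    linarith
  have hQZ : ((Q : ℝ) + 1) / Z ≤ ε := by
    rw [div_le_iff₀ hZ0]
    have h1 : ((Q : ℝ) + 1) / ε ≤ Z := by linarith
    rw [div_le_iff₀ hε] at h1
    linarith
  rcases s.eq_empty_or_nonempty with rfl | hs
  · simp
  have hs0 : (0 : ℝ) < s.card := by exact_mod_cast hs.card_pos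
  have hL1 : 1 ≤ 42 + 3 * Real.log q := by
    have := Real.log_natCast_nonneg q
    linarith
  have hq0 : (0 : ℝ) < q := lt_of_lt_of_le hZ0 hsm.1
  obtain ⟨ρ, hρ⟩ : ∃ ρ : ι → ZMod Q, ρ = fun j => ((G j : ℤ) : ZMod Q) := ⟨_, rfl⟩
  have h1 := VF.count_le q _ (by positivity) s hs y hsm.2 c₀ Q hQ0 ρ
  rw [← hr] at h1
  have e1 : 1 / (Z * (42 + 3 * Real.log q) ^ r) * (42 + 3 * Real.log q) ^ r = 1 / Z := by
    have : (42 + 3 * Real.log q) ^ r ≠ 0 := (pow_pos (by linarith) r).ne'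
    field_simp
  rw [e1] at h1
  have h2 := (abs_le.1 h1).1
  have h3 : (Q : ℝ) / q ≤ Q / Z := div_le_div_of_nonneg_left hQ0r.le hZ0 hsm.1
  have h4 : 1 / (Q : ℝ) ^ r - ε ≤
      ((#{i ∈ s | red Q (fun j => c₀ j + ((y i j).val : ℕ)) = ρ} : ℕ) : ℝ) / s.card := by
    have h5 : (Q : ℝ) / Z + 1 / Z ≤ ε := by
      rw [← add_div]
      exact hQZ
    linarith
  rw [le_div_iff₀ hs0] at h4
  rw [← hr, inv_eq_one_div]
  refine h4.trans (le_of_eq ?_)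
  rw [← Set.ncard_coe_finset]
  congr 2
  ext i
  simp only [coe_filter, Set.mem_setOf_eq]
  refine and_congr_right fun _ => ?_
  rw [hρ, funext_iff]
  refine forall_congr' fun j => ?_
  change ((c₀ j + ((y i j).val : ℕ) : ℤ) : ZMod Q) = ((G j : ℤ) : ZMod Q) ↔ (Q : ℤ) ∣ (c₀ j + ((y i j).val : ℕ)) - G j
  rw [← ZMod.intCast_zmod_eq_zero_iff_dvd, Int.cast_sub, sub_eq_zero]

end Pool.Agent.N676.RV
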