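import Mathlib

/-!
# Families of vectors of residues with small Fourier coefficients: definitions

(helper676, after the families of helper384)
-/

set_option autoImplicit false

namespace Pool.Agent.N676.RV

open Filter Topology

/-- The Fourier coefficients of the vectors of residues `y i`, `i ∈ s`, modulo `q` at the nonzero frequencies are at most
`η` times the number of the vectors: `|∑ i ∈ s, e(h·y_i / q)| ≤ η |s|` for all vectors `h ≠ 0` modulo `q`. -/
def Flat {τ ι : Type} [Fintype ι] (q : ℕ) [NeZero q] (η : ℝ) (s : Finset τ) (y : τ → ι → ZMod q) : Prop :=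
  ∀ h : ι → ZMod q, h ≠ 0 → ‖∑ i ∈ s, (ZMod.stdAddChar (∑ j, h j * y i j) : ℂ)‖ ≤ η * s.card

/-- The same for residues (vectors with one coordinate). -/
def Flat1 {τ : Type} (q : ℕ) [NeZero q] (η : ℝ) (s : Finset τ) (y : τ → ZMod q) : Prop :=
  ∀ h : ZMod q, h ≠ 0 → ‖∑ i ∈ s, (ZMod.stdAddChar (h * y i) : ℂ)‖ ≤ η * s.card

/-- `Z ≤ q`, and the Fourier coefficients at the nonzero frequencies are at most `|s| / (Z (42 + 3 log q) ^ r)`, where `r` is
the number of the coordinates. -/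
def Small {τ ι : Type} [Fintype ι] (q : ℕ) [NeZero q] (Z : ℝ) (s : Finset τ) (y : τ → ι → ZMod q) : Prop :=
  Z ≤ q ∧ Flat q (1 / (Z * (42 + 3 * Real.log q) ^ Fintype.card ι)) s y

/-- The integral vector `c₀ + y_i`, with the least residues `0 ≤ y_i < q`. -/
def vec {τ ι : Type} {q : ℕ} (y : τ → ι → ZMod q) (c₀ : ι → ℤ) (i : τ) (j : ι) : ℤ := c₀ j + ((y i j).val : ℕ)

/-- A sequence of families of integral vectors: the family number `k` consists of the vectors `c₀ + y_i`, `i ∈ s k`, with the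
least residues of the vectors `y_i` modulo `q k`, whose Fourier coefficients at the nonzero frequencies are at most
`|s k| / (Z k (42 + 3 log (q k)) ^ r)`, `Z k ≤ q k`, where `Z k` tends to infinity. -/
structure Fams (ι : Type) [Fintype ι] where
  τ : ℕ → Type
  q : ℕ → ℕ
  ne : ∀ k, NeZero (q k)
  s : ∀ k, Finset (τ k)
  y : ∀ k, τ k → ι → ZMod (q k)
  Z : ℕ → ℝ
  c₀ : ℕ → ι → ℤ
  lim : Tendsto Z atTop atTop
  small : ∀ k, Small (q k) (Z k) (s k) (y k)

/-- the vector number `i` of the family number `k` -/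
def Fams.v {ι : Type} [Fintype ι] (F : Fams ι) (k : ℕ) (i : F.τ k) : ι → ℤ := vec (F.y k) (F.c₀ k) i

/-- Sets `E k` of members of the families whose proportion tends to zero. -/
def Fams.Thin {ι : Type} [Fintype ι] (F : Fams ι) (E : ∀ k, Set (F.τ k)) : Prop :=
  Tendsto (fun k => ({i : F.τ k | i ∈ F.s k ∧ i ∈ E k}.ncard : ℝ) / ((F.s k).card : ℝ)) atTop (𝓝 0)

/-- Almost all members of all families of vectors of residues with small Fourier coefficients have the property `P`: for every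
`ε > 0` all but `ε |s|` of the vectors `c₀ + y_i`, `i ∈ s`, have it, for all families with `Z` above a constant which depends
only on `P` and `ε`, and for all integral vectors `c₀`. -/
def AlmostAll {ι : Type} [Fintype ι] (P : (ι → ℤ) → Prop) : Prop :=
  ∀ ε : ℝ, 0 < ε → ∃ Z₀ : ℕ, ∀ (τ : Type) (q : ℕ) [NeZero q] (s : Finset τ) (y : τ → ι → ZMod q) (Z : ℝ),
    Z₀ ≤ Z → Small q Z s y → ∀ c₀ : ι → ℤ, ({i : τ | i ∈ s ∧ ¬ P (vec y c₀ i)}.ncard : ℝ) ≤ ε * s.card

/-- **Examples.** (1) Products: if the residues `y_j(t)`, `t ∈ s_j`, have Fourier coefficients at most `η |s_j|` for each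
coordinate `j`, then the family of vectors `(y_j(g_j))_j`, `g_j ∈ s_j`, has Fourier coefficients at most `η` times the number
of its members.

(2) Residues modulo primes `p`, with Fourier coefficients at most `|s| / K`, `K ≥ 1` arbitrary: the quotients `j / r` of the
integers `0 ≤ j < S` by the primes `r ≤ R`, if `K log ^ 4 p ≤ R < p` and `R ^ 2 ≤ S` (and `p` is large); the cosets of all
subgroups of the multiplicative group of an order of at least `5 p ^ (3/8) K ^ 3`; the residues `a b + g(a) + k(b)`, `a ∈ A`,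
`b ∈ B`, for arbitrary sets with `|A| |B| ≥ p K ^ 2` and arbitrary functions `g` and `k`.

(3) Polynomial curves: for `1 ≤ d ≤ D` there is `C` such that for all primes `p` and all integral polynomials `f_j` of
pairwise distinct degrees between `d` and `D` whose leading coefficients are not divisible by `p`, the vectors `(f_j(n))_j`
modulo `p`, `0 ≤ n < x`, have Fourier coefficients at most `x / K` for all `K ≥ 1` with `C K ^ C ≤ p` and
`C K ^ C p ≤ x ^ d`. -/
def Examples : Prop :=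
    (∀ (ι : Type) [Fintype ι] [DecidableEq ι] (q : ℕ) [NeZero q] (η : ℝ) (τ : Type) (s : ι → Finset τ) (y : ι → τ → ZMod q),
      (∀ j, Flat1 q η (s j) (y j)) → Flat q η (Fintype.piFinset s) (fun g j => y j (g j))) ∧
    (∃ P₀ : ℕ, ∀ p : ℕ, P₀ ≤ p → ∀ [Fact p.Prime] (K : ℝ), 1 ≤ K →
      (∀ R S : ℕ, K * Real.log p ^ 4 ≤ R → R < p → R ^ 2 ≤ S →
        Flat1 p (1 / K) (((Finset.Icc 1 R).filter Nat.Prime) ×ˢ Finset.range S)
          (fun z => ((z.2 : ℕ) : ZMod p) * ((z.1 : ℕ) : ZMod p)⁻¹)) ∧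
      (∀ (H : Subgroup (ZMod p)ˣ) (s : Finset (ZMod p)ˣ), (∀ u, u ∈ s ↔ u ∈ H) →
        5 * (p : ℝ) ^ (3 / 8 : ℝ) * K ^ 3 ≤ s.card → ∀ x : ZMod p, x ≠ 0 → Flat1 p (1 / K) s (fun u => x * (u : ZMod p))) ∧
      (∀ (A B : Finset (ZMod p)) (g k : ZMod p → ZMod p), (p : ℝ) * K ^ 2 ≤ A.card * B.card →
        Flat1 p (1 / K) (A ×ˢ B) (fun z => z.1 * z.2 + g z.1 + k z.2))) ∧
    (∀ d D : ℕ, 1 ≤ d → ∃ C : ℕ, ∀ (ι : Type) [Fintype ι] (p : ℕ) [Fact p.Prime] (f : ι → Polynomial ℤ),
      (∀ j, d ≤ (f j).natDegree ∧ (f j).natDegree ≤ D ∧ ¬ (p : ℤ) ∣ (f j).leadingCoeff) →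
      Function.Injective (fun j => (f j).natDegree) → ∀ K : ℝ, 1 ≤ K → C * K ^ C ≤ p → ∀ x : ℕ,
      C * K ^ C * p ≤ (x : ℝ) ^ d → Flat p (1 / K) (Finset.range x) (fun n j => (((f j).eval (n : ℤ) : ℤ) : ZMod p)))

end Pool.Agent.N676.RV
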