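import Pool.Agent.N676.RV.Base
import Pool.Agent.N384.MQ.Gen

set_option autoImplicit false

/-!
Examples of families of vectors of residues with small Fourier coefficients.
-/

namespace Pool.Agent.N676.RV.VF

open Finset Polynomial

/-- products of families of residues -/
theorem flat_pi {ι : Type} [Fintype ι] [DecidableEq ι] (q : ℕ) [NeZero q] (η : ℝ) {τ : Type} (s : ι → Finset τ)
    (y : ι → τ → ZMod q) (hf : ∀ j, Pool.Agent.N384.MQ.Flat q η (s j) (y j)) :
    Flat q η (Fintype.piFinset s) (fun g j => y j (g j)) := by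
  classical
  intro h hh
  obtain ⟨j₀, hj₀⟩ : ∃ j, h j ≠ 0 := by
    by_contra hcon
    push Not at hcon
    exact hh (funext hcon)
  have h2 : ∀ g : ι → τ, (ZMod.stdAddChar (∑ j, h j * y j (g j)) : ℂ) = ∏ j, (ZMod.stdAddChar (h j * y j (g j)) : ℂ) := by
    intro g
    have : ∀ s : Finset ι, (ZMod.stdAddChar (∑ j ∈ s, h j * y j (g j)) : ℂ) =
        ∏ j ∈ s, (ZMod.stdAddChar (h j * y j (g j)) : ℂ) := by
      intro s
      induction s using Finset.induction_on with
      | empty => simp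
      | insert a s ha ih => rw [sum_insert ha, prod_insert ha, AddChar.map_add_eq_mul, ih]
    exact this univ
  rw [sum_congr rfl fun g _ => h2 g]
  rw [(prod_univ_sum s (fun j t => (ZMod.stdAddChar (h j * y j t) : ℂ))).symm, norm_prod, Fintype.card_piFinset,
    ← mul_prod_erase univ _ (mem_univ j₀)]
  have h3 : ∀ j, ‖∑ t ∈ s j, (ZMod.stdAddChar (h j * y j t) : ℂ)‖ ≤ (s j).card := by
    intro j
    refine (norm_sum_le _ _).trans ?_
    refine (sum_le_card_nsmul _ _ 1 fun t _ => ?_).trans ?_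
    · exact (AddChar.norm_apply _ _).le
    · simp
  push_cast
  rw [← mul_prod_erase univ (fun j => ((s j).card : ℝ)) (mem_univ j₀), ← mul_assoc]
  apply mul_le_mul (hf j₀ (h j₀) hj₀) _ (prod_nonneg fun _ _ => norm_nonneg _)
  · exact le_trans (norm_nonneg _) (hf j₀ (h j₀) hj₀)
  · exact prod_le_prod (fun _ _ => norm_nonneg _) fun j _ => h3 j

/-- vectors of the values of polynomials of different degrees -/
theorem flat_poly (d D : ℕ) (hd : 1 ≤ d) : ∃ C : ℕ, ∀ (ι : Type) [Fintype ι] (p : ℕ) [Fact p.Prime] (f : ι → ℤ[X]),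
    (∀ j, d ≤ (f j).natDegree ∧ (f j).natDegree ≤ D ∧ ¬ (p : ℤ) ∣ (f j).leadingCoeff) →
    Function.Injective (fun j => (f j).natDegree) → ∀ K : ℝ, 1 ≤ K → C * K ^ C ≤ p → ∀ x : ℕ, C * K ^ C * p ≤ (x : ℝ) ^ d →
    Flat p (1 / K) (range x) (fun n j => (((f j).eval (n : ℤ) : ℤ) : ZMod p)) := by
  classical
  have hch : ∀ e : ℕ, ∃ C : ℕ, 1 ≤ e → ∀ p : ℕ, ∀ [Fact p.Prime] (f : ℤ[X]), f.natDegree = e →
      ¬ (p : ℤ) ∣ f.leadingCoeff → ∀ K : ℝ, 1 ≤ K → C * K ^ C ≤ p → ∀ x : ℕ, C * K ^ C * p ≤ (x : ℝ) ^ e →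
      Pool.Agent.N384.MQ.Flat p (1 / K) (range x) (fun n => ((f.eval (n : ℤ) : ℤ) : ZMod p)) := by
    intro e
    by_cases he : 1 ≤ e
    · obtain ⟨C, hC⟩ := Pool.Agent.N384.MQ.flatK_poly e he
      exact ⟨C, fun _ => hC⟩
    · exact ⟨0, fun h => absurd h he⟩
  choose c hc using hch
  refine ⟨(∑ e ∈ range (D + 1), c e) + 1, fun ι _ p _ f hf hinj K hK hKp x hx h hh => ?_⟩
  have hp := (Fact.out : p.Prime)
  have hp0 : (0 : ℝ) < p := by exact_mod_cast hp.pos
  obtain ⟨C, hC⟩ : ∃ C, C = (∑ e ∈ range (D + 1), c e) + 1 := ⟨_, rfl⟩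
  rw [← hC] at hKp hx
  have hK0 : (0 : ℝ) < K := by linarith
  have hC1 : 1 ≤ C := by omega
  have hCr : (1 : ℝ) ≤ C := by exact_mod_cast hC1
  -- the coordinate with the largest degree
  have hne : (univ.filter (fun j => h j ≠ 0)).Nonempty := by
    by_contra hcon
    rw [not_nonempty_iff_eq_empty, filter_eq_empty_iff] at hcon
    apply hh
    funext j
    have := hcon (mem_univ j)
    push Not at this
    exact this
  obtain ⟨j₁, hj₁, hmax⟩ := exists_max_image (univ.filter (fun j => h j ≠ 0)) (fun j => (f j).natDegree) hne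
  rw [mem_filter] at hj₁
  obtain ⟨e, he⟩ : ∃ e, e = (f j₁).natDegree := ⟨_, rfl⟩
  obtain ⟨F, hF⟩ : ∃ F : ℤ[X], F = ∑ j ∈ univ.filter (fun j => h j ≠ 0), Polynomial.C (((h j).val : ℕ) : ℤ) * f j := ⟨_, rfl⟩
  have hcoeff : F.coeff e = (((h j₁).val : ℕ) : ℤ) * (f j₁).leadingCoeff := by
    rw [hF, finsetSum_coeff, sum_eq_single j₁]
    · rw [coeff_C_mul, he]
      rfl
    · intro j hj hjne
      rw [coeff_C_mul, coeff_eq_zero_of_natDegree_lt, mul_zero]
      have h1 := hmax j hj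
      have h2 : (f j).natDegree ≠ (f j₁).natDegree := fun h3 => hjne (hinj h3)
      omega
    · intro hn
      exact absurd (mem_filter.2 hj₁) hn
  have hnd : ¬ (p : ℤ) ∣ F.coeff e := by
    rw [hcoeff]
    intro hdvd
    rcases (Nat.prime_iff_prime_int.1 hp).dvd_or_dvd hdvd with h1 | h1
    · have h2 : p ∣ (h j₁).val := by exact_mod_cast h1
      have h3 := Nat.eq_zero_of_dvd_of_lt h2 (ZMod.val_lt _)
      exact hj₁.2 ((ZMod.val_eq_zero _).1 h3)
    · exact (hf j₁).2.2 h1
  have hdeg : F.natDegree = e := by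
    apply le_antisymm
    · rw [hF]
      apply natDegree_sum_le_of_forall_le
      intro j hj
      refine (natDegree_C_mul_le _ _).trans ?_
      rw [he]
      exact hmax j hj
    · apply le_natDegree_of_ne_zero
      intro h0
      rw [h0] at hnd
      exact hnd (dvd_zero _)
  have he1 : 1 ≤ e := by
    rw [he]
    exact hd.trans (hf j₁).1
  have heD : e ≤ D := by
    rw [he]
    exact (hf j₁).2.1
  have hde : d ≤ e := by
    rw [he]
    exact (hf j₁).1
  have hce : c e ≤ C := by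
    rw [hC]
    have := single_le_sum (f := c) (fun _ _ => Nat.zero_le _) (mem_range.2 (by omega : e < D + 1))
    omega
  have hbd : (c e : ℝ) * K ^ c e ≤ C * K ^ C := by
    apply mul_le_mul (by exact_mod_cast hce) (pow_le_pow_right₀ hK hce) (by positivity) (by positivity)
  have hx1 : (1 : ℝ) ≤ x := by
    by_contra hcon
    push Not at hcon
    have h1 : x = 0 := by
      have : x < 1 := by exact_mod_cast hcon
      omega
    rw [h1, Nat.cast_zero, zero_pow (by omega)] at hx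
    have : 0 < (C : ℝ) * K ^ C * p := by positivity
    linarith
  have h4 := hc e he1 p F hdeg (by rw [leadingCoeff, hdeg]; exact hnd) K hK (hbd.trans hKp) x
    ((mul_le_mul_of_nonneg_right hbd hp0.le).trans (hx.trans (pow_le_pow_right₀ hx1 hde))) 1 one_ne_zero
  have h5 : ∀ n : ℕ, (1 : ZMod p) * ((F.eval (n : ℤ) : ℤ) : ZMod p) = ∑ j, h j * (((f j).eval (n : ℤ) : ℤ) : ZMod p) := by
    intro n
    rw [one_mul, hF, eval_finsetSum]
    push_cast
    rw [sum_filter]
    refine sum_congr rfl fun j _ => ?_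
    by_cases hj : h j = 0
    · rw [if_neg (by simpa using hj), hj, zero_mul]
    · rw [if_pos hj, eval_mul, eval_C]
      push_cast
      rw [ZMod.natCast_zmod_val]
  simp only [h5] at h4
  exact h4

end Pool.Agent.N676.RV.VF
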