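import Pool.Agent.N676.RV.Defs
import Pool.Agent.N676.RV.Base
import Pool.Agent.N676.RV.Ex
import Pool.Agent.N24.RW.Clo

/-!
# Pronull sets are avoided by almost all members of families of vectors of residues

(helper676; uniform distribution modulo small integers by helper384, pronull sets by helper24 and
helper300)
-/

set_option autoImplicit false

namespace Pool.Agent.N676.RV

open Finset Filter Topology Pool.Agent.N24.RW
open Pool.Agent.Y722.HS (red)

theorem examples : Examples := by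
  refine ⟨fun ι _ _ q _ η τ s y h => VF.flat_pi q η s y h, ?_,
    fun d D hd => VF.flat_poly d D hd⟩
  obtain ⟨P₀, h0⟩ := Pool.Agent.N384.MQ.flatK_quot
  exact ⟨P₀, fun p hp _ K hK => ⟨fun R S => h0 p hp K hK R S,
    fun H s hs hc x hx => Pool.Agent.N384.MQ.flatK_coset p H s hs K hK hc x hx,
    fun A B g k hAB => Pool.Agent.N384.MQ.flatK_prod p A B g k K hK hAB⟩⟩

section
variable {ι : Type} [Fintype ι]

lemma finite_sub {τ : Type} (s : Finset τ) (P : τ → Prop) : {i : τ | i ∈ s ∧ P i}.Finite :=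
  (Finset.finite_toSet s).subset fun _ hn => hn.1

lemma ncard_mono {τ : Type} {s : Finset τ} {P Q : τ → Prop} (h : ∀ i ∈ s, P i → Q i) :
    ({i : τ | i ∈ s ∧ P i}.ncard : ℝ) ≤ ({i : τ | i ∈ s ∧ Q i}.ncard : ℝ) := by
  have h1 : {i : τ | i ∈ s ∧ P i}.ncard ≤ {i : τ | i ∈ s ∧ Q i}.ncard :=
    Set.ncard_le_ncard (fun n hn => ⟨hn.1, h n hn.1 hn.2⟩) (finite_sub s Q)
  exact_mod_cast h1

/-- **the principle**: a pronull set contains only few members of the families -/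
theorem pro_fam {B : Set (ι → ℤ)} (hB : ProNull B) : AlmostAll fun v => v ∉ B := by
  classical
  intro ε hε
  obtain ⟨Q, hQ0, _, hQ⟩ := hB 1 one_pos (ε / 2) (by positivity)
  have hQ0r : (0 : ℝ) < Q := by exact_mod_cast hQ0
  have : NeZero Q := ⟨hQ0.ne'⟩
  obtain ⟨r, hr⟩ : ∃ r, r = Fintype.card ι := ⟨_, rfl⟩
  obtain ⟨Z₀, hZ₀⟩ := exists_nat_ge (2 * (Q : ℝ) ^ r * ((Q : ℝ) + 1) / ε)
  refine ⟨Z₀ + 1, fun τ q _ s y Z hZ hsm c₀ => ?_⟩
  have hZ1 : (Z₀ : ℝ) + 1 ≤ Z := by exact_mod_cast hZ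
  have hZ0 : 0 < Z := by
    have : (0 : ℝ) ≤ Z₀ := Nat.cast_nonneg _
    linarith
  have hQZ : 2 * (Q : ℝ) ^ r * ((Q : ℝ) + 1) ≤ ε * Z := by
    have h1 : 2 * (Q : ℝ) ^ r * ((Q : ℝ) + 1) / ε ≤ Z := by linarith
    rw [div_le_iff₀ hε] at h1
    linarith
  rcases s.eq_empty_or_nonempty with rfl | hs
  · simp
  have hs0 : (0 : ℝ) < s.card := by exact_mod_cast hs.card_pos
  have hL1 : 1 ≤ 42 + 3 * Real.log q := by
    have := Real.log_natCast_nonneg q
    linarith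
  have hq0 : (0 : ℝ) < q := lt_of_lt_of_le hZ0 hsm.1
  -- the classes
  obtain ⟨A, hA⟩ : ∃ A : Set (ι → ZMod Q), A = (fun (c : ι → ℤ) (i : ι) => (c i : ZMod Q)) '' B := ⟨_, rfl⟩
  rw [← hA, ← hr] at hQ
  have hAf : A.Finite := Set.toFinite A
  have hcount : ∀ ρ : ι → ZMod Q,
      ((#{i ∈ s | red Q (fun j => c₀ j + ((y i j).val : ℕ)) = ρ} : ℕ) : ℝ) ≤
        s.card * (1 / (Q : ℝ) ^ r + ((Q : ℝ) + 1) / Z) := by
    intro ρ
    have h1 := VF.count_le q _ (by positivity) s hs y hsm.2 c₀ Q hQ0 ρ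
    rw [← hr] at h1
    have e1 : 1 / (Z * (42 + 3 * Real.log q) ^ r) * (42 + 3 * Real.log q) ^ r = 1 / Z := by
      have : (42 + 3 * Real.log q) ^ r ≠ 0 := (pow_pos (by linarith) r).ne'
      field_simp
    rw [e1] at h1
    have h2 := (abs_le.1 h1).2
    have h3 : (Q : ℝ) / q ≤ Q / Z := div_le_div_of_nonneg_left hQ0r.le hZ0 hsm.1
    have h4 : ((#{i ∈ s | red Q (fun j => c₀ j + ((y i j).val : ℕ)) = ρ} : ℕ) : ℝ) / s.card ≤
        1 / (Q : ℝ) ^ r + ((Q : ℝ) + 1) / Z := by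
      rw [add_div]
      linarith
    rw [div_le_iff₀ hs0] at h4
    linarith
  have hsub : {i : τ | i ∈ s ∧ ¬ (vec y c₀ i ∉ B)} ⊆
      ((hAf.toFinset.biUnion fun ρ => {i ∈ s | red Q (fun j => c₀ j + ((y i j).val : ℕ)) = ρ} : Finset τ) : Set τ) := by
    rintro i ⟨hi, hiB⟩
    rw [not_not] at hiB
    simp only [coe_biUnion, Set.mem_iUnion, Finset.mem_coe, Set.Finite.mem_toFinset, mem_filter]
    refine ⟨fun j => ((vec y c₀ i j : ℤ) : ZMod Q), ?_, hi, ?_⟩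
    · rw [hA]
      exact ⟨_, hiB, rfl⟩
    · rfl
  have h5 : ({i : τ | i ∈ s ∧ ¬ (vec y c₀ i ∉ B)}.ncard : ℝ) ≤
      ∑ ρ ∈ hAf.toFinset, ((#{i ∈ s | red Q (fun j => c₀ j + ((y i j).val : ℕ)) = ρ} : ℕ) : ℝ) := by
    have h6 := Set.ncard_le_ncard hsub (Finset.finite_toSet _)
    rw [Set.ncard_coe_finset] at h6
    exact_mod_cast h6.trans card_biUnion_le
  refine h5.trans ((sum_le_sum fun ρ _ => hcount ρ).trans ?_)
  rw [sum_const, nsmul_eq_mul]
  have h7 : (hAf.toFinset.card : ℝ) ≤ ε / 2 * (Q : ℝ) ^ r := by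
    rw [← Set.ncard_eq_toFinset_card A hAf]
    exact hQ
  have h8 : (hAf.toFinset.card : ℝ) ≤ (Q : ℝ) ^ r := by
    have h9 : hAf.toFinset.card ≤ Fintype.card (ι → ZMod Q) := Finset.card_le_univ _
    rw [Fintype.card_fun, ZMod.card, ← hr] at h9
    exact_mod_cast h9
  have hQr : (0 : ℝ) < (Q : ℝ) ^ r := by positivity
  have h10 : (hAf.toFinset.card : ℝ) * (1 / (Q : ℝ) ^ r + ((Q : ℝ) + 1) / Z) ≤ ε := by
    rw [mul_add]
    have h11 : (hAf.toFinset.card : ℝ) * (1 / (Q : ℝ) ^ r) ≤ ε / 2 := by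
      rw [mul_one_div, div_le_iff₀ hQr]
      exact h7
    have h12 : (hAf.toFinset.card : ℝ) * (((Q : ℝ) + 1) / Z) ≤ ε / 2 := by
      calc (hAf.toFinset.card : ℝ) * (((Q : ℝ) + 1) / Z) ≤ (Q : ℝ) ^ r * (((Q : ℝ) + 1) / Z) :=
            mul_le_mul_of_nonneg_right h8 (by positivity)
        _ = (Q : ℝ) ^ r * ((Q : ℝ) + 1) / Z := by ring
        _ ≤ ε / 2 := by
            rw [div_le_iff₀ hZ0]
            linarith
    linarith
  calc (hAf.toFinset.card : ℝ) * (s.card * (1 / (Q : ℝ) ^ r + ((Q : ℝ) + 1) / Z))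
      = (hAf.toFinset.card : ℝ) * (1 / (Q : ℝ) ^ r + ((Q : ℝ) + 1) / Z) * s.card := by ring
    _ ≤ ε * s.card := mul_le_mul_of_nonneg_right h10 hs0.le

/-- the union of finitely many pronull sets -/
theorem pro_biUnion {κ : Type*} (B : κ → Set (ι → ℤ)) (hB : ∀ x, ProNull (B x)) (S : Finset κ) :
    ProNull {v | ∃ x ∈ S, v ∈ B x} := by
  classical
  induction S using Finset.induction_on with
  | empty =>
    intro M hM ε hε
    refine ⟨1, one_pos, Nat.coprime_one_left M, ?_⟩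
    simp
    positivity
  | insert a S ha ih =>
    refine Clo.mono ?_ (Clo.union (hB a) ih)
    rintro v ⟨x, hx, hv⟩
    rw [mem_insert] at hx
    rcases hx with rfl | hx
    · exact Or.inl hv
    · exact Or.inr ⟨x, hx, hv⟩

/-- **one set of exceptional members for countably many pronull sets** -/
theorem one_fam (F : Fams ι) {κ : Type*} [Countable κ] (B : κ → Set (ι → ℤ)) (hB : ∀ x, ProNull (B x)) :
    ∃ E : ∀ k, Set (F.τ k), F.Thin E ∧
      ∀ x : κ, ∀ᶠ k in atTop, ∀ i ∈ F.s k, i ∉ E k → F.v k i ∉ B x := by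
  classical
  obtain ⟨en, hen⟩ := Countable.exists_injective_nat κ
  have hfin : ∀ n : ℕ, {x : κ | en x < n}.Finite := fun n =>
    Set.Finite.preimage hen.injOn (Set.finite_Iio n)
  obtain ⟨U, hU⟩ : ∃ U : ℕ → Set (ι → ℤ), U = fun n => {v | ∃ x, en x < n ∧ v ∈ B x} := ⟨_, rfl⟩
  have hUn : ∀ n, ProNull (U n) := by
    intro n
    refine Clo.mono ?_ (pro_biUnion B hB (hfin n).toFinset)
    rw [hU]
    rintro v ⟨x, hx, hv⟩
    exact ⟨x, (hfin n).mem_toFinset.2 hx, hv⟩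
  obtain ⟨P, hP⟩ : ∃ P : ℕ → ℕ → Prop, P = fun k n =>
      ({i : F.τ k | i ∈ F.s k ∧ F.v k i ∈ U n}.ncard : ℝ) ≤ 1 / ((n : ℝ) + 1) * (F.s k).card := ⟨_, rfl⟩
  have hP0 : ∀ k, P k 0 := by
    intro k
    rw [hP, hU]
    have : {i : F.τ k | i ∈ F.s k ∧ F.v k i ∈ {v : ι → ℤ | ∃ x, en x < 0 ∧ v ∈ B x}} = ∅ := by
      ext i
      simp
    simp only [this]
    simp
  have hPn : ∀ n, ∀ᶠ k in atTop, P k n := by
    intro n
    obtain ⟨Z₀, h0⟩ := pro_fam (hUn n) (1 / ((n : ℝ) + 1)) (by positivity)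
    filter_upwards [F.lim.eventually_ge_atTop (Z₀ : ℝ)] with k hk
    have := F.ne k
    have h1 := h0 (F.τ k) (F.q k) (F.s k) (F.y k) (F.Z k) hk (F.small k) (F.c₀ k)
    rw [hP]
    refine le_trans (ncard_mono fun i _ hi => ?_) h1
    rw [not_not]
    exact hi
  obtain ⟨g, hg⟩ : ∃ g : ℕ → ℕ, g = fun k => Nat.findGreatest (P k) k := ⟨_, rfl⟩
  have hgP : ∀ k, P k (g k) := by
    intro k
    rw [hg]
    exact Nat.findGreatest_spec (P := P k) (Nat.zero_le k) (hP0 k)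
  have hgt : Tendsto g atTop atTop := by
    rw [tendsto_atTop]
    intro n
    filter_upwards [hPn n, eventually_ge_atTop n] with k h1 h2
    rw [hg]
    exact Nat.le_findGreatest h2 h1
  refine ⟨fun k => {i | F.v k i ∈ U (g k)}, ?_, ?_⟩
  · have h2 : Tendsto (fun k => 1 / ((g k : ℝ) + 1)) atTop (𝓝 0) :=
      (tendsto_one_div_add_atTop_nhds_zero_nat (𝕜 := ℝ)).comp hgt
    refine squeeze_zero (fun k => by positivity) (fun k => ?_) h2
    rcases (F.s k).eq_empty_or_nonempty with he | hne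
    · rw [he]
      simp
      positivity
    · have h3 : (0 : ℝ) < (F.s k).card := by exact_mod_cast hne.card_pos
      rw [div_le_iff₀ h3]
      have := hgP k
      rw [hP] at this
      exact this
  · intro x
    filter_upwards [hgt.eventually_gt_atTop (en x)] with k hk i _ hiE hiB
    apply hiE
    change F.v k i ∈ U (g k)
    rw [hU]
    exact ⟨x, hk, hiB⟩

end

end Pool.Agent.N676.RV
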