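import Pool.Agent.N676.RV.Pro

/-!
# Sets which are small modulo one number contain few members of the families of vectors of residues

(helper676; uniform distribution modulo small integers by helper384)
-/

set_option autoImplicit false

namespace Pool.Agent.N676.RV

open Finset Filter Topology Pool.Agent.N24.RW
open Pool.Agent.Y722.HS (red)

variable {ι : Type} [Fintype ι]

/-- a set which is small modulo one number contains few members of the families -/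
theorem small_fam (B : Set (ι → ℤ)) (Q : ℕ) (hQ0 : 0 < Q) (ε : ℝ) (hε : 0 < ε)
    (hQ : ((((fun (c : ι → ℤ) (i : ι) => (c i : ZMod Q)) '' B).ncard : ℕ) : ℝ) ≤
      ε / 2 * (Q : ℝ) ^ Fintype.card ι) : ∃ Z₀ : ℕ, ∀ (τ : Type) (q : ℕ) [NeZero q]
      (s : Finset τ) (y : τ → ι → ZMod q) (Z : ℝ), Z₀ ≤ Z → Small q Z s y → ∀ c₀ : ι → ℤ,
        ({i : τ | i ∈ s ∧ vec y c₀ i ∈ B}.ncard : ℝ) ≤ ε * s.card := by
  classical
  have hQ0r : (0 : ℝ) < Q := by exact_mod_cast hQ0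
  have : NeZero Q := ⟨hQ0.ne'⟩
  obtain ⟨r, hr⟩ : ∃ r, r = Fintype.card ι := ⟨_, rfl⟩
  obtain ⟨Z₀, hZ₀⟩ := exists_nat_ge (2 * (Q : ℝ) ^ r * ((Q : ℝ) + 1) / ε)
  refine ⟨Z₀ + 1, fun τ q _ s y Z hZ hsm c₀ => ?_⟩
  have hZ1 : (Z₀ : ℝ) + 1 ≤ Z := by exact_mod_cast hZ
  have hZ0 : 0 < Z := by
    have : (0 : ℝ) ≤ Z₀ := Nat.cast_nonneg _
    linarith
  have hQZ : 2 * (Q : ℝ) ^ r * ((Q : ℝ) + 1) ≤ ε * Z := by
    have h1 : 2 * (Q : ℝ) ^ r * ((Q : ℝ) + 1) / ε ≤ Z := by linarith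
    rw [div_le_iff₀ hε] at h1
    linarith
  rcases s.eq_empty_or_nonempty with rfl | hs
  · simp
  have hs0 : (0 : ℝ) < s.card := by exact_mod_cast hs.card_pos
  have hL1 : 1 ≤ 42 + 3 * Real.log q := by
    have := Real.log_natCast_nonneg q
    linarith
  have hq0 : (0 : ℝ) < q := lt_of_lt_of_le hZ0 hsm.1
  obtain ⟨A, hA⟩ : ∃ A : Set (ι → ZMod Q), A = (fun (c : ι → ℤ) (i : ι) => (c i : ZMod Q)) '' B := ⟨_, rfl⟩
  rw [← hA, ← hr] at hQ
  have hAf : A.Finite := Set.toFinite A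
  have hcount : ∀ ρ : ι → ZMod Q,
      ((#{i ∈ s | red Q (fun j => c₀ j + ((y i j).val : ℕ)) = ρ} : ℕ) : ℝ) ≤
        s.card * (1 / (Q : ℝ) ^ r + ((Q : ℝ) + 1) / Z) := by
    intro ρ
    have h1 := VF.count_le q _ (by positivity) s hs y hsm.2 c₀ Q hQ0 ρ
    rw [← hr] at h1
    have e1 : 1 / (Z * (42 + 3 * Real.log q) ^ r) * (42 + 3 * Real.log q) ^ r = 1 / Z := by
      have : (42 + 3 * Real.log q) ^ r ≠ 0 := (pow_pos (by linarith) r).ne'
      field_simp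
    rw [e1] at h1
    have h2 := (abs_le.1 h1).2
    have h3 : (Q : ℝ) / q ≤ Q / Z := div_le_div_of_nonneg_left hQ0r.le hZ0 hsm.1
    have h4 : ((#{i ∈ s | red Q (fun j => c₀ j + ((y i j).val : ℕ)) = ρ} : ℕ) : ℝ) / s.card ≤
        1 / (Q : ℝ) ^ r + ((Q : ℝ) + 1) / Z := by
      rw [add_div]
      linarith
    rw [div_le_iff₀ hs0] at h4
    linarith
  have hsub : {i : τ | i ∈ s ∧ vec y c₀ i ∈ B} ⊆
      ((hAf.toFinset.biUnion fun ρ => {i ∈ s | red Q (fun j => c₀ j + ((y i j).val : ℕ)) = ρ} : Finset τ) : Set τ) := by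
    rintro i ⟨hi, hiB⟩
    simp only [coe_biUnion, Set.mem_iUnion, Finset.mem_coe, Set.Finite.mem_toFinset, mem_filter]
    refine ⟨fun j => ((vec y c₀ i j : ℤ) : ZMod Q), ?_, hi, ?_⟩
    · rw [hA]
      exact ⟨_, hiB, rfl⟩
    · rfl
  have h5 : ({i : τ | i ∈ s ∧ vec y c₀ i ∈ B}.ncard : ℝ) ≤
      ∑ ρ ∈ hAf.toFinset, ((#{i ∈ s | red Q (fun j => c₀ j + ((y i j).val : ℕ)) = ρ} : ℕ) : ℝ) := by
    have h6 := Set.ncard_le_ncard hsub (Finset.finite_toSet _)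
    rw [Set.ncard_coe_finset] at h6
    exact_mod_cast h6.trans card_biUnion_le
  refine h5.trans ((sum_le_sum fun ρ _ => hcount ρ).trans ?_)
  rw [sum_const, nsmul_eq_mul]
  have h7 : (hAf.toFinset.card : ℝ) ≤ ε / 2 * (Q : ℝ) ^ r := by
    rw [← Set.ncard_eq_toFinset_card A hAf]
    exact hQ
  have h8 : (hAf.toFinset.card : ℝ) ≤ (Q : ℝ) ^ r := by
    have h9 : hAf.toFinset.card ≤ Fintype.card (ι → ZMod Q) := Finset.card_le_univ _
    rw [Fintype.card_fun, ZMod.card, ← hr] at h9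
    exact_mod_cast h9
  have hQr : (0 : ℝ) < (Q : ℝ) ^ r := by positivity
  have h10 : (hAf.toFinset.card : ℝ) * (1 / (Q : ℝ) ^ r + ((Q : ℝ) + 1) / Z) ≤ ε := by
    rw [mul_add]
    have h11 : (hAf.toFinset.card : ℝ) * (1 / (Q : ℝ) ^ r) ≤ ε / 2 := by
      rw [mul_one_div, div_le_iff₀ hQr]
      exact h7
    have h12 : (hAf.toFinset.card : ℝ) * (((Q : ℝ) + 1) / Z) ≤ ε / 2 := by
      calc (hAf.toFinset.card : ℝ) * (((Q : ℝ) + 1) / Z) ≤ (Q : ℝ) ^ r * (((Q : ℝ) + 1) / Z) :=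
            mul_le_mul_of_nonneg_right h8 (by positivity)
        _ = (Q : ℝ) ^ r * ((Q : ℝ) + 1) / Z := by ring
        _ ≤ ε / 2 := by
            rw [div_le_iff₀ hZ0]
            linarith
    linarith
  calc (hAf.toFinset.card : ℝ) * (s.card * (1 / (Q : ℝ) ^ r + ((Q : ℝ) + 1) / Z))
      = (hAf.toFinset.card : ℝ) * (1 / (Q : ℝ) ^ r + ((Q : ℝ) + 1) / Z) * s.card := by ring
    _ ≤ ε * s.card := mul_le_mul_of_nonneg_right h10 hs0.le

end Pool.Agent.N676.RV
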